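import Pool.Agent.U161.PM.Lin

/-!
# Digits of polynomial multiples of `π`

Areas `π r²` of circles, volumes `(4/3) π r³` of balls and, more generally, numbers `f(l) x + h(l)`,
`l < N`, where `x` is an irrational number algebraic over `ℚ(π)`, `f` an integer polynomial and `h` any
real polynomial of smaller degree: all but few of them contain, in every base `b ≤ B`, every block of
`k` digits infinitely often.
-/

set_option autoImplicit false

namespace Pool.Agent.Results.MP_57632f_nt.PolynomialMultiplesOfPi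

open Polynomial Pool.Agent.W226.MP Pool.Agent.TH869.LPD Finset Filter

/-- (1) For every `d` there are `c, C > 0` such that the following holds for all `f ∈ ℤ[X]` with
`1 ≤ deg f ≤ d` and leading coefficient `a`, all `h ∈ ℝ[X]` with `deg h < deg f` and all `N ≥ 1`, where
`seqv f h x l = f(l) x + h(l)`.
(a) Let `x` be an irrational number which is algebraic over `ℚ(π)`, for instance
`π, π / 3, π², 1 / π, √π, π + √2`. For all `B ≥ 2` and `k ≥ 1`, all but at most
`C B ^ (k + 1) N (B / N) ^ (c / (2 k B ^ k log B))` of the `l < N` are such that in every base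
`2 ≤ b ≤ B` every block of `k` digits occurs infinitely often in the expansion of `f(l) x + h(l)`.
(b) For `x = π / v` with an integer `v ≥ 1` there is a constant `C'` depending only on `v` such that
for every base `b ≥ 2` and every place `S` there is a place
`S ≤ s ≤ 6.05 S + 5.05 log_b (N |a|) + C'` such that the number of `l < N` with
`u ≤ {b ^ s (f(l) x + h(l))} < u'` is `(u' - u) N` up to an error of `C N (b / N) ^ c`, for all
`0 ≤ u ≤ u' ≤ 1`.
(2) For all `b ≥ 2`, `k, v ≥ 1` and `0 < ε < 1` there are `c, C > 0` such that for every real `y` and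
all `M ≥ 2`, for all but at most `C M ^ (1 - c)` of the `m < M` there are infinitely many `n` such
that every block of `k` digits occurs at least `(1 - ε) log_b M log n / (b ^ k log 6.05)` times at the
first `n` places of `y + m π / v` in base `b`. -/
theorem result :
    (∀ d : ℕ, ∃ c C : ℝ, 0 < c ∧ 0 < C ∧
      (∀ x : ℝ, Irrational x →
        IsAlgebraic (IntermediateField.adjoin ℚ ({Real.pi} : Set ℝ)) x →
        ∀ f : ℤ[X], 1 ≤ f.natDegree → f.natDegree ≤ d →
        ∀ h : ℝ[X], h.natDegree < f.natDegree → ∀ N : ℕ, 1 ≤ N → ∀ B k : ℕ, 2 ≤ B → 1 ≤ k →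
        ({l : ℕ | l < N ∧ ∃ b : ℕ, 2 ≤ b ∧ b ≤ B ∧ ∃ w : Fin k → Fin b,
          {p : ℕ | OccursAt b k w (seqv f h x l) p}.Finite}.ncard : ℝ)
          ≤ C * (B : ℝ) ^ (k + 1) * N * ((B : ℝ) / N) ^ (c / (2 * k * (B : ℝ) ^ k * Real.log B))) ∧
      (∀ v : ℕ, 1 ≤ v → ∃ C' : ℝ, ∀ f : ℤ[X], 1 ≤ f.natDegree → f.natDegree ≤ d →
        ∀ h : ℝ[X], h.natDegree < f.natDegree → ∀ N : ℕ, 1 ≤ N → ∀ b : ℕ, 2 ≤ b →
        ∀ S : ℕ, ∃ s : ℕ, S ≤ s ∧
          (s : ℝ) ≤ 6.05 * S + 5.05 * (Real.log (N * |(f.leadingCoeff : ℝ)|) / Real.log b) + C' ∧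
          ∀ u u' : ℝ, 0 ≤ u → u ≤ u' → u' ≤ 1 →
          |({l : ℕ | l < N ∧ u ≤ Int.fract ((b : ℝ) ^ s * seqv f h (Real.pi / v) l) ∧
              Int.fract ((b : ℝ) ^ s * seqv f h (Real.pi / v) l) < u'}.ncard : ℝ) - (u' - u) * N|
            ≤ C * N * ((b : ℝ) / N) ^ c)) ∧
    (∀ b k v : ℕ, 2 ≤ b → 1 ≤ k → 1 ≤ v → ∀ ε : ℝ, 0 < ε → ε < 1 →
      ∃ c C : ℝ, 0 < c ∧ 0 < C ∧ ∀ (y : ℝ) (M : ℕ), 2 ≤ M →
      ({m : ℕ | m < M ∧ ¬ ∃ᶠ n : ℕ in atTop, ∀ w : Fin k → Fin b,
        (1 - ε) * (Real.log M * Real.log n / ((b : ℝ) ^ k * Real.log b * Real.log 6.05)) ≤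
          (occ b k w (y + m * (Real.pi / v)) 0 n : ℝ)}.ncard : ℝ) ≤ C * (M : ℝ) ^ (1 - c)) := by
  refine ⟨fun d => ?_, ?_⟩
  · obtain ⟨c, hc, hc1, K, hK, hmain⟩ := poly_words d
    refine ⟨c, K, hc, by linarith, ?_, ?_⟩
    · intro x hx halg f hf1 hf2 h hh N hN B k hB hk
      obtain ⟨κ, c0, hκ, hc0, hm⟩ := Pool.Agent.U161.PM.alg_pi_meas x hx halg
      exact Pool.Agent.U161.PM.all_bases c K hc hK N B k hN hB hk (seqv f h x)
        (fun b hb => (hmain x κ c0 hκ hc0 hm b hb f hf1 hf2 h hh N hN).2 k hk)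
    · intro v hv
      obtain ⟨c0, hc0, hm⟩ := Pool.Agent.U161.PM.pi_div_meas v hv
      refine ⟨|Real.log c0| / Real.log 2 + 1, ?_⟩
      intro f hf1 hf2 h hh N hN b hb S
      obtain ⟨h1, _⟩ := hmain (Real.pi / v) 5.05 c0 (by norm_num) hc0 hm b hb f hf1 hf2 h hh N hN
      obtain ⟨s, a1, a2, a3, _⟩ := h1 S
      refine ⟨s, a1, ?_, a3⟩
      have e1 : (1 : ℝ) + 5.05 = 6.05 := by norm_num
      rw [e1] at a2
      exact a2
  · intro b k v hb hk hv ε hε hε1
    obtain ⟨c0, hc0, hm⟩ := Pool.Agent.U161.PM.pi_div_meas v hv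
    have hirr : Irrational (Real.pi / v) := by
      have := irrational_pi.div_natCast (m := v) (by omega)
      exact this
    obtain ⟨c, C, hc, hC, h⟩ := Pool.Agent.U161.PM.lin (Real.pi / v) 5.05 c0 hirr (by norm_num) hc0 hm
      b k hb hk ε hε hε1
    refine ⟨c, C, hc, hC, fun y M hM => ?_⟩
    have e1 : (1 : ℝ) + 5.05 = 6.05 := by norm_num
    have h1 := h y M hM
    rw [e1] at h1
    exact h1

end Pool.Agent.Results.MP_57632f_nt.PolynomialMultiplesOfPi
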