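import Pool.Agent.U364.PD.Mach
import Pool.Agent.R473.FP.FS
import Pool.Agent.H326R2.Pi.Top

/-!
# Pushdown predictors for the digits of `π`

A real number is normal in base `b` if and only if no finite automaton predicts its digits better than chance (Schnorr
and Stimm). The starting file `FiniteStatePredictors` shows that a finite automaton makes at least `c log N` errors on
the first `N` digits of `π`. Here we prove a bound of the same order for deterministic pushdown automata, i.e. for
machines with an unbounded memory in the form of a stack, which may make an unbounded number of moves between two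
digits. The proof: on a stretch of digits without errors the machine is an autonomous pushdown system. Such a system
runs into a cycle of surfaces (state and top symbol) after a number of steps which is at most linear in the height of
the stack, with uniform constants (`Pool.Agent.U364.PD.aut`), and the height of the stack after `u` digits is at most
linear in `u`, whatever the number of moves without reading is (`Pool.Agent.U364.PD.height`). So a stretch without
errors from the `u`-th digit to the `v`-th digit is periodic from the digit `C u` on, with a period at most `C u`, and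
the irrationality measure of `π` gives `v ≤ C' u`. For irrational algebraic numbers the starting file
`MP_5b6025_nt.PushdownPredictors` has other (polylogarithmic) bounds.
-/

set_option autoImplicit false

open Pool.Agent.U364.PD

namespace Pool.Agent.Results.MP_57632f_nt.PushdownPredictors

/-- the `i`-th digit of `x` after the point in base `b` -/
noncomputable def digit (b : ℕ) (x : ℝ) (i : ℕ) : ℤ := ⌊x * (b : ℝ) ^ i⌋ % (b : ℤ)

/-- the general bound -/
theorem general (x μ c0 : ℝ) (hμ : 1 < μ) (hc0 : 0 < c0)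
    (hx : ∀ q : ℕ, 1 ≤ q → ∀ p : ℤ, c0 ≤ (q : ℝ) ^ (μ - 1) * (1 + Real.log q) ^ (0 : ℝ) * |q * x - p|)
    (b : ℕ) (hb : 2 ≤ b) {Q Γ : Type} [Finite Q] [Finite Γ] (M : Machine Q Γ) :
    ∃ K : ℝ, ∀ (q₀ : Q) (s₀ : List Γ) (N : ℕ),
      (N : ℝ) ≤ K ^ (errors M (digit b x) q₀ s₀ N + 1) * (s₀.length + 1) := by
  classical
  obtain ⟨C, hC⟩ := stretch M b
  have hd : ∀ n, 0 ≤ digit b x n ∧ digit b x n < b := fun n =>
    ⟨Int.emod_nonneg _ (by exact_mod_cast (by omega : b ≠ 0)),
      Int.emod_lt_of_pos _ (by exact_mod_cast (by omega : 0 < b))⟩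
  obtain ⟨A, hA⟩ : ∃ A : ℝ, A = μ * (1 + C) + 3 / 2 * |Real.log c0| := ⟨_, rfl⟩
  have hlc : 0 ≤ 3 / 2 * |Real.log c0| := by positivity
  have hA1 : 0 ≤ A := by rw [hA]; positivity
  -- a stretch without errors
  have hgap : ∀ (q₀ : Q) (s₀ : List Γ) (u v : ℕ),
      (∀ i, u ≤ i → i < v → Predicts M (digit b x) q₀ s₀ i) →
      (v : ℝ) ≤ A * (u + s₀.length + 1) := by
    intro q₀ s₀ u v hp
    obtain ⟨a, p, hp1, hap, hper⟩ := hC (digit b x) hd q₀ s₀ u v hp
    have h := Pool.Agent.R473.FP.gap_fs x μ c0 0 hμ hc0 le_rfl hx b hb (C * (u + s₀.length + 1)) u v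
      a p hp1 hap hper
    push_cast at h
    have hu : (0 : ℝ) ≤ u := Nat.cast_nonneg u
    have hs : (0 : ℝ) ≤ s₀.length := Nat.cast_nonneg _
    have hCC : (0 : ℝ) ≤ C := Nat.cast_nonneg _
    have h1 : (1 : ℝ) ≤ u + s₀.length + 1 := by linarith
    have h2 : 3 / 2 * |Real.log c0| ≤ 3 / 2 * |Real.log c0| * (u + s₀.length + 1) :=
      le_mul_of_one_le_right hlc h1
    have h3 : μ * (u + C * (u + s₀.length + 1)) ≤ μ * (1 + C) * (u + s₀.length + 1) := by
      rw [mul_assoc]
      refine mul_le_mul_of_nonneg_left ?_ (by linarith)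
      nlinarith
    have h4 : A * (u + s₀.length + 1) = μ * (1 + C) * (u + s₀.length + 1) +
        3 / 2 * |Real.log c0| * (u + s₀.length + 1) := by rw [hA]; ring
    rw [h4]
    linarith
  refine ⟨A + 2, fun q₀ s₀ N => ?_⟩
  have hs : (0 : ℝ) ≤ s₀.length := Nat.cast_nonneg _
  -- the place after the last error
  have key : ∀ N : ℕ, ∃ u : ℕ, u ≤ N ∧
      (∀ i, u ≤ i → i < N → Predicts M (digit b x) q₀ s₀ i) ∧
      ((u : ℝ) + s₀.length + 1) ≤ (A + 2) ^ errors M (digit b x) q₀ s₀ N * (s₀.length + 1) := by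
    intro N
    induction N with
    | zero => exact ⟨0, le_rfl, fun i _ h => absurd h (Nat.not_lt_zero i), by simp [errors]⟩
    | succ N ih =>
      obtain ⟨u, huN, hpr, hle⟩ := ih
      by_cases hN : Predicts M (digit b x) q₀ s₀ N
      · have he : errors M (digit b x) q₀ s₀ (N + 1) = errors M (digit b x) q₀ s₀ N := by
          unfold errors
          rw [Finset.range_add_one, Finset.filter_insert, if_neg (by simpa using hN)]
        refine ⟨u, by omega, fun i h1 h2 => ?_, by rw [he]; exact hle⟩
        rcases Nat.lt_succ_iff_lt_or_eq.1 h2 with h3 | h3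
        · exact hpr i h1 h3
        · rw [h3]; exact hN
      · have he : errors M (digit b x) q₀ s₀ (N + 1) = errors M (digit b x) q₀ s₀ N + 1 := by
          unfold errors
          rw [Finset.range_add_one, Finset.filter_insert, if_pos (by simpa using hN),
            Finset.card_insert_of_notMem (by simp)]
        refine ⟨N + 1, le_rfl, fun i h1 h2 => by omega, ?_⟩
        rw [he, pow_succ]
        have h1 := hgap q₀ s₀ u N hpr
        have h2 := mul_le_mul_of_nonneg_left hle hA1
        have h3 : (s₀.length : ℝ) + 1 ≤ (A + 2) ^ errors M (digit b x) q₀ s₀ N * (s₀.length + 1) :=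
          le_mul_of_one_le_left (by linarith) (one_le_pow₀ (by linarith))
        push_cast
        nlinarith
  obtain ⟨u, huN, hpr, hle⟩ := key N
  have h1 := hgap q₀ s₀ u N hpr
  have h2 := mul_le_mul_of_nonneg_left hle hA1
  have h3 : 0 ≤ (A + 2) ^ errors M (digit b x) q₀ s₀ N * (s₀.length + 1) := by positivity
  rw [pow_succ]
  nlinarith

/-- small denominators -/
theorem small_den (x : ℝ) (hx : Irrational x) (n : ℕ) :
    ∃ c : ℝ, 0 < c ∧ ∀ q : ℕ, 1 ≤ q → q < n → ∀ p : ℤ, c ≤ |q * x - p| := by
  induction n with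
  | zero => exact ⟨1, one_pos, fun q _ h => absurd h (Nat.not_lt_zero q)⟩
  | succ n ih =>
    obtain ⟨c, hc, h⟩ := ih
    rcases Nat.eq_zero_or_pos n with hn | hn
    · exact ⟨1, one_pos, fun q h1 h2 => by omega⟩
    · have hirr : Irrational ((n : ℝ) * x) := hx.natCast_mul (by omega)
      have hpos : 0 < |(n : ℝ) * x - round ((n : ℝ) * x)| := by
        rw [abs_pos, sub_ne_zero]
        exact hirr.ne_int _
      refine ⟨min c |(n : ℝ) * x - round ((n : ℝ) * x)|, lt_min hc hpos, fun q h1 h2 p => ?_⟩
      rcases Nat.lt_succ_iff_lt_or_eq.1 h2 with h3 | h3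
      · exact (min_le_left _ _).trans (h q h1 h3 p)
      · rw [h3]
        exact (min_le_right _ _).trans (round_le _ _)

/-- the irrationality measure of `π` for all denominators (copied from the starting file `FiniteStatePredictors`) -/
theorem pi_measure : ∃ c : ℝ, 0 < c ∧ ∀ q : ℕ, 1 ≤ q → ∀ p : ℤ,
    c ≤ (q : ℝ) ^ ((6.05 : ℝ) - 1) * (1 + Real.log q) ^ (0 : ℝ) * |q * Real.pi - p| := by
  obtain ⟨q0, hq0⟩ := Pool.Agent.H326R2.Pi.main
  obtain ⟨c, hc, hsm⟩ := small_den Real.pi irrational_pi q0
  refine ⟨min c 1, lt_min hc one_pos, fun q hq p => ?_⟩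
  rw [Real.rpow_zero, mul_one, show (6.05 : ℝ) - 1 = 5.05 by norm_num]
  have hqR : (1 : ℝ) ≤ q := by exact_mod_cast hq
  have hq0R : (0 : ℝ) < q := by linarith
  rcases lt_or_ge q q0 with h | h
  · refine (min_le_left _ _).trans ((hsm q hq h p).trans ?_)
    have h1 : (1 : ℝ) ≤ (q : ℝ) ^ (5.05 : ℝ) := Real.one_le_rpow hqR (by norm_num)
    nlinarith [abs_nonneg ((q : ℝ) * Real.pi - p)]
  · refine (min_le_right _ _).trans ?_
    have h1 := hq0 q h p
    have e1 : |Real.pi - p / q| = |q * Real.pi - p| / q := by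
      rw [← abs_of_pos hq0R, ← abs_div, abs_of_pos hq0R]
      congr 1
      field_simp
    rw [e1, le_div_iff₀ hq0R] at h1
    have h2 : (1 : ℝ) = (q : ℝ) ^ (5.05 : ℝ) * ((q : ℝ) ^ (-(6.05 : ℝ)) * q) := by
      have e2 : (q : ℝ) ^ (-(6.05 : ℝ)) * q = (q : ℝ) ^ (-(5.05 : ℝ)) := by
        rw [show (-(5.05 : ℝ)) = -(6.05 : ℝ) + 1 by norm_num, Real.rpow_add hq0R, Real.rpow_one]
      rw [e2, ← Real.rpow_add hq0R]
      norm_num
    rw [h2]
    exact mul_le_mul_of_nonneg_left h1 (by positivity)

/-- irrational numbers which are not Liouville numbers have an irrationality measure -/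
theorem measure_of_not_liouville (x : ℝ) (hx : Irrational x) (hL : ¬ Liouville x) :
    ∃ μ c : ℝ, 1 < μ ∧ 0 < c ∧ ∀ q : ℕ, 1 ≤ q → ∀ p : ℤ,
      c ≤ (q : ℝ) ^ (μ - 1) * (1 + Real.log q) ^ (0 : ℝ) * |q * x - p| := by
  unfold Liouville at hL
  push Not at hL
  obtain ⟨n, hn⟩ := hL
  obtain ⟨c, hc, hsm⟩ := small_den x hx 2
  refine ⟨n + 2, min c 1, by have := Nat.cast_nonneg (α := ℝ) n; linarith, lt_min hc one_pos,
    fun q hq p => ?_⟩
  rw [Real.rpow_zero, mul_one, show (n : ℝ) + 2 - 1 = ((n + 1 : ℕ) : ℝ) by push_cast; ring,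
    Real.rpow_natCast]
  have hqR : (1 : ℝ) ≤ q := by exact_mod_cast hq
  have hq0R : (0 : ℝ) < q := by linarith
  rcases lt_or_ge q 2 with h | h
  · refine (min_le_left _ _).trans ((hsm q hq h p).trans ?_)
    exact le_mul_of_one_le_left (abs_nonneg _) (one_le_pow₀ hqR)
  · refine (min_le_right _ _).trans ?_
    have hne : x ≠ (p : ℝ) / ((q : ℤ) : ℝ) := by
      have := hx.ne_rat ((p : ℚ) / (q : ℚ))
      push_cast at this ⊢
      exact this
    have h1 := hn p q (by exact_mod_cast h) hne
    have e1 : |x - (p : ℝ) / ((q : ℤ) : ℝ)| = |q * x - p| / q := by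
      push_cast
      rw [← abs_of_pos hq0R, ← abs_div, abs_of_pos hq0R]
      congr 1
      field_simp
    rw [e1] at h1
    push_cast at h1
    have h2 : (q : ℝ) ≤ (q : ℝ) ^ (n + 1) * |q * x - p| := by
      have h3 := mul_le_mul_of_nonneg_left h1 (by positivity : (0 : ℝ) ≤ (q : ℝ) ^ (n + 1))
      have h4 : (q : ℝ) ^ (n + 1) * (1 / (q : ℝ) ^ n) = q := by
        rw [pow_succ]; field_simp
      have h5 : (q : ℝ) ^ (n + 1) * (|q * x - p| / q) = (q : ℝ) ^ n * |q * x - p| := by
        rw [pow_succ]; field_simp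
      rw [h4, h5] at h3
      refine h3.trans (mul_le_mul_of_nonneg_right ?_ (abs_nonneg _))
      exact pow_le_pow_right₀ hqR (by omega)
    linarith

/-- **Pushdown predictors.** Let `x = π`, or let `x` be any irrational number which is not a Liouville number. For every
base `b ≥ 2` and every deterministic pushdown machine `M` with a finite set of states `Q` and a finite stack alphabet `Γ`
there is a constant `K` such that for all initial states `q₀`, all initial stacks `s₀` and all `N` the number
`E = errors M d q₀ s₀ N` of digits among the first `N` digits of `x` in base `b` which the machine does not predict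
satisfies `N ≤ K ^ (E + 1) * (|s₀| + 1)`; so `E ≥ c log N - C`. -/
theorem result (x : ℝ) (hx : x = Real.pi ∨ (Irrational x ∧ ¬ Liouville x)) (b : ℕ) (hb : 2 ≤ b)
    (Q Γ : Type) [Finite Q] [Finite Γ] (M : Machine Q Γ) :
    ∃ K : ℝ, ∀ (q₀ : Q) (s₀ : List Γ) (N : ℕ),
      (N : ℝ) ≤ K ^ (errors M (digit b x) q₀ s₀ N + 1) * (s₀.length + 1) := by
  rcases hx with rfl | ⟨hx, hL⟩
  · obtain ⟨c, hc, h⟩ := pi_measure
    exact general Real.pi 6.05 c (by norm_num) hc h b hb M
  · obtain ⟨μ, c, hμ, hc, h⟩ := measure_of_not_liouville x hx hL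
    exact general x μ c hμ hc h b hb M

end Pool.Agent.Results.MP_57632f_nt.PushdownPredictors
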