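import Pool.Agent.U798.MN.E5

/-!
# `π` is normal in base ten if and only if all its multiples are simply normal

Let `b ≥ 3`. A real number `x` is normal in base `b` if and only if every multiple `k x`, `k ≥ 1`, is
simply normal in base `b`, that is, has all digits with frequency `1 / b`. Hence the equidistribution of
the words of all lengths in the expansion of `π` is the equidistribution of single digits in the
expansions of `π, 2 π, 3 π, …`. For `b = 2` this is false: all the multiples of the number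
`0.01 0011 000111 ⋯` are simply normal in base `2`, while the words `01` and `10` have frequency `0` in it.

The theorem has a finite form, valid for every irrational `x` and every `N`: if the digit frequencies up
to `N` of the multiples `k x` with `k ≤ exp (C ε ^ (-η))` are `1 / b` up to an error `ε ^ (1 + η) / C`,
then the discrepancy of the first `N` terms of `(x b ^ n)` is at most `ε`. Here `η > 0` is arbitrary,
and `C` depends only on `b` and `η`.

Proof. Let `D(y)` be the indicator function of a digit minus `1 / b`. The linear combinations of the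
functions `D` belonging to the digits contain, for every Dirichlet character `χ` modulo `b`, a function
with Fourier coefficients `χ(n) / n` (up to a constant). So formally
`∑_k μ(k) χ(k) / k * D_χ(k y) = c (e(y) - χ(-1) e(-y))`. By Davenport's estimate for
`∑_{k ≤ K} μ(k) e(k y)` (here for the progressions modulo `b`) the left-hand side converges, uniformly in
`y` and faster than every power of `1 / log K`; the identity holds for irrational `y`. For `b ≥ 3` there is
an odd and an even character modulo `b`, which gives `e(y)`. The Erdős–Turán inequality finishes the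
proof. For `b = 2` there is no odd character, and only `e(y) - e(-y)` can be reached.
-/

set_option autoImplicit false

open Finset Filter Topology

namespace Pool.Agent.Results.MP_57632f_nt.SimplyNormalMultiples

/-- the `i`-th digit of `x` after the point in base `b`, `i = 1, 2, …` -/
noncomputable def digit (b : ℕ) (x : ℝ) (i : ℕ) : ℤ := ⌊x * (b : ℝ) ^ i⌋ % (b : ℤ)

/-- the number of `i < N` such that the digits of `x` number `i + 1, …, i + k` are
`w 0, …, w (k - 1)` -/
noncomputable def wordCount (b : ℕ) {k : ℕ} (w : Fin k → Fin b) (x : ℝ) (N : ℕ) : ℕ :=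
  ((range N).filter fun i : ℕ => ∀ j : Fin k, digit b x (i + 1 + j) = ((w j : ℕ) : ℤ)).card

/-- the number of digits `d` among the first `N` digits of `x` after the point -/
noncomputable def digitCount (b : ℕ) (d : Fin b) (x : ℝ) (N : ℕ) : ℕ :=
  ((range N).filter fun i : ℕ => digit b x (i + 1) = ((d : ℕ) : ℤ)).card

/-- the number of `n < N` such that the fractional part of `x b ^ n` lies in `[s, t)` -/
noncomputable def visits (b : ℕ) (x s t : ℝ) (N : ℕ) : ℕ :=
  ((range N).filter fun n : ℕ =>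
    s ≤ Int.fract (x * (b : ℝ) ^ n) ∧ Int.fract (x * (b : ℝ) ^ n) < t).card

/-- `x` is normal in base `b`: every word of `k ≥ 1` digits has frequency `1 / b ^ k` -/
def Normal (b : ℕ) (x : ℝ) : Prop := ∀ k : ℕ, 1 ≤ k → ∀ w : Fin k → Fin b,
  Tendsto (fun N : ℕ => (wordCount b w x N : ℝ) / N) atTop (𝓝 (1 / (b : ℝ) ^ k))

/-- `x` is simply normal in base `b`: every digit has frequency `1 / b` -/
def SimplyNormal (b : ℕ) (x : ℝ) : Prop := ∀ d : Fin b,
  Tendsto (fun N : ℕ => (digitCount b d x N : ℝ) / N) atTop (𝓝 (1 / (b : ℝ)))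

open Pool.Agent.U798.MN (dg vis occ val)

variable {b : ℕ}

lemma digit_eq (x : ℝ) (n j : ℕ) : digit b x (n + 1 + j) = dg b (x * (b : ℝ) ^ n) j := by
  unfold digit dg
  congr 2
  rw [mul_assoc, ← pow_add]
  congr 2
  omega

/-- the word as a sequence -/
def ext {k : ℕ} (w : Fin k → Fin b) : ℕ → ℤ := fun j => if h : j < k then ((w ⟨j, h⟩ : ℕ) : ℤ) else 0

lemma ext_nonneg {k : ℕ} (w : Fin k → Fin b) (j : ℕ) : 0 ≤ ext w j := by
  unfold ext
  split_ifs <;> positivity

lemma ext_lt (hb : 2 ≤ b) {k : ℕ} (w : Fin k → Fin b) (j : ℕ) : ext w j < b := by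
  unfold ext
  split_ifs with h
  · exact_mod_cast (w ⟨j, h⟩).2
  · exact_mod_cast (by omega : 0 < b)

lemma wordCount_eq {k : ℕ} (w : Fin k → Fin b) (x : ℝ) (N : ℕ) :
    wordCount b w x N = occ b k (ext w) x N := by
  unfold wordCount occ
  congr 1
  refine filter_congr fun n _ => ?_
  constructor
  · intro h j hj
    have := h ⟨j, hj⟩
    rw [digit_eq] at this
    rw [this]
    unfold ext
    rw [dif_pos hj]
  · intro h j
    rw [digit_eq, h j j.2]
    unfold ext
    rw [dif_pos j.2]

lemma digitCount_eq (hb : 2 ≤ b) (d : Fin b) (x : ℝ) (N : ℕ) :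
    digitCount b d x N = vis b x (((d : ℕ) : ℝ) / b) ((((d : ℕ) : ℝ) + 1) / b) N := by
  have h1 : digitCount b d x N = wordCount b (fun _ : Fin 1 => d) x N := by
    unfold digitCount wordCount
    congr 1
    refine filter_congr fun n _ => ?_
    constructor
    · intro h j
      have : (j : ℕ) = 0 := by omega
      rw [this, add_zero]
      exact h
    · intro h
      exact h 0
  rw [h1, wordCount_eq, Pool.Agent.U798.MN.occ_eq_vis hb 1 _ (ext_nonneg _) (ext_lt hb _)]
  have h2 : val b (ext (fun _ : Fin 1 => d)) 1 = ((d : ℕ) : ℤ) := by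
    simp [Pool.Agent.U798.MN.val, ext]
  rw [h2, pow_one]
  push_cast
  rfl

/-- normality in terms of the words as sequences -/
lemma normal_ud (hb : 2 ≤ b) (x : ℝ) (h : Normal b x) (s t : ℝ) (hs : 0 ≤ s) (hst : s ≤ t)
    (ht : t ≤ 1) : Tendsto (fun N : ℕ => (vis b x s t N : ℝ) / N) atTop (𝓝 (t - s)) := by
  refine Pool.Agent.U798.MN.ud_of_words hb x (fun k hk w hw0 hw1 => ?_) s t hs hst ht
  have h1 := h k hk (fun j => ⟨(w j).toNat, by
    have := hw0 j
    have := hw1 j
    omega⟩)
  simp_rw [wordCount_eq] at h1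
  convert h1 using 3 with N
  unfold occ
  norm_cast
  congr 1
  refine filter_congr fun n _ => ?_
  refine forall_congr' fun j => imp_congr_right fun hj => ?_
  unfold ext
  rw [dif_pos hj]
  simp only
  rw [Int.toNat_of_nonneg (hw0 j)]

lemma normal_of_ud (hb : 2 ≤ b) (x : ℝ)
    (h : ∀ s t : ℝ, 0 ≤ s → s ≤ t → t ≤ 1 →
      Tendsto (fun N : ℕ => (vis b x s t N : ℝ) / N) atTop (𝓝 (t - s))) : Normal b x := by
  intro k _ w
  have hb0 : (0 : ℝ) < (b : ℝ) ^ k := by
    have : (0 : ℝ) < b := by exact_mod_cast (by omega : 0 < b)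
    positivity
  simp_rw [wordCount_eq, Pool.Agent.U798.MN.occ_eq_vis hb k _ (ext_nonneg _) (ext_lt hb _)]
  have h0 : (0 : ℤ) ≤ val b (ext w) k := Pool.Agent.U798.MN.val_nonneg _ (ext_nonneg w) k
  have h1 : val b (ext w) k + 1 ≤ (b : ℤ) ^ k := Pool.Agent.U798.MN.val_lt _ (ext_lt hb w) k
  have h0' : (0 : ℝ) ≤ (val b (ext w) k : ℝ) := by exact_mod_cast h0
  have h1' : (val b (ext w) k : ℝ) + 1 ≤ (b : ℝ) ^ k := by exact_mod_cast h1
  have h2 := h ((val b (ext w) k : ℝ) / (b : ℝ) ^ k) (((val b (ext w) k : ℝ) + 1) / (b : ℝ) ^ k)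
    (by positivity) (div_le_div_of_nonneg_right (by linarith) hb0.le) (by rw [div_le_one hb0]; exact h1')
  have e : ((val b (ext w) k : ℝ) + 1) / (b : ℝ) ^ k - (val b (ext w) k : ℝ) / (b : ℝ) ^ k =
      1 / (b : ℝ) ^ k := by ring
  rwa [e] at h2

/-- the finite form -/
theorem finite_form (hb : 3 ≤ b) (η : ℝ) (hη : 0 < η) : ∃ C : ℝ, 1 ≤ C ∧ ∀ ε : ℝ, 0 < ε → ε ≤ 1 →
    ∀ x : ℝ, Irrational x → ∀ N : ℕ,
      (∀ k : ℕ, 1 ≤ k → (k : ℝ) ≤ Real.exp (C * ε ^ (-η)) → ∀ d : Fin b,
        |(digitCount b d (k * x) N : ℝ) - N / b| ≤ ε ^ (1 + η) / C * N) →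
      ∀ s t : ℝ, 0 ≤ s → s ≤ t → t ≤ 1 → |(vis b x s t N : ℝ) - (t - s) * N| ≤ ε * N := by
  obtain ⟨C, hC, h⟩ := Pool.Agent.U798.MN.quant hb η hη
  refine ⟨C, hC, fun ε hε hε1 x hx N hd => h ε hε hε1 x hx N fun k hk1 hk2 d hdb => ?_⟩
  have := hd k hk1 hk2 ⟨d, hdb⟩
  rwa [digitCount_eq (by omega)] at this

/-- the digits of integers are zero -/
lemma digit_int (z : ℤ) (i : ℕ) : digit b (z : ℝ) (i + 1) = 0 := by
  unfold digit
  have : (z : ℝ) * (b : ℝ) ^ (i + 1) = ((z * (b : ℤ) ^ (i + 1) : ℤ) : ℝ) := by push_cast; rfl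
  rw [this, Int.floor_intCast, pow_succ, ← mul_assoc, Int.mul_emod_left]

theorem main (hb : 3 ≤ b) (x : ℝ) : Normal b x ↔ ∀ k : ℕ, 1 ≤ k → SimplyNormal b (k * x) := by
  have hb0 : (0 : ℝ) < b := by exact_mod_cast (by omega : 0 < b)
  constructor
  · intro h k hk d
    simp_rw [digitCount_eq (show 2 ≤ b by omega)]
    have hd : (((d : ℕ) : ℝ) + 1) ≤ b := by
      have := d.2
      exact_mod_cast this
    have h1 := Pool.Agent.U798.MN.ud_mult b x (normal_ud (by omega) x h) k hk (((d : ℕ) : ℝ) / b)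
      ((((d : ℕ) : ℝ) + 1) / b) (by positivity) (div_le_div_of_nonneg_right (by linarith) hb0.le)
      (by rw [div_le_one hb0]; exact hd)
    have e : (((d : ℕ) : ℝ) + 1) / b - ((d : ℕ) : ℝ) / b = 1 / b := by ring
    rwa [e] at h1
  · intro h
    have hirr : Irrational x := by
      rintro ⟨q, rfl⟩
      have h1 := h q.den q.den_pos ⟨1, by omega⟩
      have h2 : ∀ N : ℕ, (digitCount b (⟨1, by omega⟩ : Fin b) ((q.den : ℝ) * (q : ℝ)) N : ℝ) = 0 := by
        intro N
        have e : (q.den : ℝ) * (q : ℝ) = ((q.num : ℤ) : ℝ) := by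
          have : (q : ℝ) * q.den = q.num := by exact_mod_cast Rat.mul_den_eq_num q
          linarith
        rw [e]
        unfold digitCount
        rw [Nat.cast_eq_zero, card_eq_zero, filter_eq_empty_iff]
        intro n _
        rw [digit_int]
        norm_num
      simp_rw [h2, zero_div] at h1
      have h3 := tendsto_nhds_unique h1 tendsto_const_nhds
      have : 1 / (b : ℝ) ≠ 0 := by positivity
      exact this h3
    refine normal_of_ud (by omega) x fun s t hs hst ht => ?_
    obtain ⟨C, hC, hfin⟩ := finite_form hb 1 one_pos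
    rw [Metric.tendsto_atTop]
    intro ε' hε'
    obtain ⟨ε, hε, hε1, hεε⟩ : ∃ ε : ℝ, 0 < ε ∧ ε ≤ 1 ∧ ε < ε' :=
      ⟨min 1 (ε' / 2), by positivity, min_le_left _ _, (min_le_right _ _).trans_lt (by linarith)⟩
    set δ : ℝ := ε ^ ((1 : ℝ) + 1) / C with hδ
    have hδ0 : 0 < δ := div_pos (Real.rpow_pos_of_pos hε _) (by linarith)
    set M : ℕ := ⌊Real.exp (C * ε ^ (-(1 : ℝ)))⌋₊ with hM
    have hev : ∀ᶠ N : ℕ in atTop, ∀ k ∈ Icc 1 M, ∀ d ∈ (univ : Finset (Fin b)),
        |(digitCount b d (k * x) N : ℝ) - N / b| ≤ δ * N := by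
      rw [Filter.eventually_all_finset]
      intro k hk
      rw [Filter.eventually_all_finset]
      intro d _
      have h1 := h k (mem_Icc.1 hk).1 d
      rw [Metric.tendsto_atTop] at h1
      obtain ⟨N0, hN0⟩ := h1 δ hδ0
      filter_upwards [eventually_ge_atTop N0, eventually_gt_atTop 0] with N hN hNp
      have h2 := hN0 N hN
      have hNr : (0 : ℝ) < N := by exact_mod_cast hNp
      rw [Real.dist_eq] at h2
      have e : (digitCount b d (k * x) N : ℝ) - N / b =
          ((digitCount b d (k * x) N : ℝ) / N - 1 / b) * N := by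
        field_simp
      rw [e, abs_mul, abs_of_pos hNr]
      exact mul_le_mul_of_nonneg_right h2.le hNr.le
    obtain ⟨N0, hN0⟩ := eventually_atTop.1 (hev.and (eventually_gt_atTop 0))
    refine ⟨N0, fun N hN => ?_⟩
    obtain ⟨g1, g2⟩ := hN0 N hN
    have hNr : (0 : ℝ) < N := by exact_mod_cast g2
    have h3 := hfin ε hε hε1 x hirr N (fun k hk1 hk2 d => g1 k (mem_Icc.2 ⟨hk1, Nat.le_floor hk2⟩) d
      (mem_univ _)) s t hs hst ht
    rw [Real.dist_eq]
    have e : (vis b x s t N : ℝ) / N - (t - s) = ((vis b x s t N : ℝ) - (t - s) * N) / N := by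
      field_simp
    rw [e, abs_div, abs_of_pos hNr, div_lt_iff₀ hNr]
    exact h3.trans_lt (mul_lt_mul_of_pos_right hεε hNr)

/-- base two -/
theorem base_two : ∃ x : ℝ, (∀ k : ℕ, 1 ≤ k → SimplyNormal 2 (k * x)) ∧
    ∀ w : Fin 2 → Fin 2, w 0 ≠ w 1 →
      Tendsto (fun N : ℕ => (wordCount 2 w x N : ℝ) / N) atTop (𝓝 0) := by
  refine ⟨Pool.Agent.U798.MN.xrun, fun k hk d => ?_, fun w hw => ?_⟩
  · obtain ⟨h0, h1⟩ := Pool.Agent.U798.MN.xrun_simple k hk
    simp_rw [digitCount_eq (le_refl 2)]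
    have hd : (d : ℕ) = 0 ∨ (d : ℕ) = 1 := by omega
    rcases hd with hd | hd
    · rw [hd]
      convert h0 using 4 <;> norm_num
    · rw [hd]
      convert h1 using 4 <;> norm_num
  · simp_rw [wordCount_eq, Pool.Agent.U798.MN.occ_eq_vis (le_refl 2) 2 _ (ext_nonneg _)
      (ext_lt (le_refl 2) _)]
    refine squeeze_zero (fun N => by positivity) (fun N => ?_) Pool.Agent.U798.MN.xrun_not_ud
    apply div_le_div_of_nonneg_right _ (Nat.cast_nonneg N)
    have hv : val 2 (ext w) 2 = 1 ∨ val 2 (ext w) 2 = 2 := by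
      have e : val 2 (ext w) 2 = 2 * ((w 0 : ℕ) : ℤ) + ((w 1 : ℕ) : ℤ) := by
        simp [Pool.Agent.U798.MN.val, ext]
      rw [e]
      have h0 : (w 0 : ℕ) ≠ (w 1 : ℕ) := fun h => hw (Fin.ext h)
      omega
    have hle : ∀ s t : ℝ, 1 / 4 ≤ s → t ≤ 3 / 4 → (vis 2 Pool.Agent.U798.MN.xrun s t N : ℝ) ≤
        vis 2 Pool.Agent.U798.MN.xrun (1 / 4) (3 / 4) N := by
      intro s t h1 h2
      exact_mod_cast (Pool.Agent.U798.MN.vis_mono_left 2 _ _ _ _ N h1).trans
        (Pool.Agent.U798.MN.vis_mono_right 2 _ _ _ _ N h2)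
    rcases hv with hv | hv
    · rw [hv]
      apply hle <;> norm_num
    · rw [hv]
      apply hle <;> norm_num

/-- **(1)** Let `b ≥ 3`. A real number `x` is normal in base `b` if and only if all its multiples `k x`,
`k = 1, 2, …`, are simply normal in base `b`.
**(2)** In particular the frozen statement `S17019` (`π` is normal in base `10`) holds if and only if
every decimal digit has frequency `1 / 10` in every multiple `k π`.
**(3)** Finite form: for `b ≥ 3` and `η > 0` there is `C` such that for all `0 < ε ≤ 1`, all irrational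
`x` and all `N`: if every digit occurs `N / b` times with an error of at most `ε ^ (1 + η) N / C` among
the first `N` digits of each of the numbers `k x` with `k ≤ exp (C ε ^ (-η))`, then every interval
`[s, t) ⊆ [0, 1)` is visited `(t - s) N` times with an error of at most `ε N` by the first `N` terms of
the sequence of the fractional parts of `x b ^ n`.
**(4)** For `b = 2` this is false: there is a real number in whose binary expansion the words `01` and
`10` have frequency `0`, while all its multiples are simply normal in base `2`. -/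
theorem result :
    (∀ b : ℕ, 3 ≤ b → ∀ x : ℝ, Normal b x ↔ ∀ k : ℕ, 1 ≤ k → SimplyNormal b (k * x)) ∧
    ((∀ k : ℕ, 0 < k → ∀ w : Fin k → Fin 10,
        Tendsto (fun n : ℕ => ((((range n).filter (fun i : ℕ => ∀ j : Fin k,
          ⌊Real.pi * (10 : ℝ) ^ (i + 1 + (j : ℕ))⌋ % 10 = (((w j : ℕ)) : ℤ))).card : ℝ) / (n : ℝ)))
          atTop (𝓝 ((1 : ℝ) / (10 : ℝ) ^ k))) ↔
      ∀ k : ℕ, 0 < k → ∀ d : ℕ, d < 10 →
        Tendsto (fun n : ℕ => ((((range n).filter (fun i : ℕ =>
          ⌊(k * Real.pi) * (10 : ℝ) ^ (i + 1)⌋ % 10 = (d : ℤ))).card : ℝ) / (n : ℝ)))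
          atTop (𝓝 (1 / 10))) ∧
    (∀ b : ℕ, 3 ≤ b → ∀ η : ℝ, 0 < η → ∃ C : ℝ, 1 ≤ C ∧ ∀ ε : ℝ, 0 < ε → ε ≤ 1 →
      ∀ x : ℝ, Irrational x → ∀ N : ℕ,
        (∀ k : ℕ, 1 ≤ k → (k : ℝ) ≤ Real.exp (C * ε ^ (-η)) → ∀ d : Fin b,
          |(digitCount b d (k * x) N : ℝ) - N / b| ≤ ε ^ (1 + η) / C * N) →
        ∀ s t : ℝ, 0 ≤ s → s ≤ t → t ≤ 1 → |(visits b x s t N : ℝ) - (t - s) * N| ≤ ε * N) ∧
    (∃ x : ℝ, (∀ k : ℕ, 1 ≤ k → SimplyNormal 2 (k * x)) ∧
      ∀ w : Fin 2 → Fin 2, w 0 ≠ w 1 →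
        Tendsto (fun N : ℕ => (wordCount 2 w x N : ℝ) / N) atTop (𝓝 0)) := by
  refine ⟨fun b hb x => main hb x, ?_, fun b hb η hη => finite_form hb η hη, base_two⟩
  have h := main (b := 10) (by norm_num) Real.pi
  unfold Normal SimplyNormal wordCount digitCount digit at h
  push_cast at h
  constructor
  · intro h1 k hk d hd
    exact h.1 h1 k hk ⟨d, hd⟩
  · intro h1
    exact h.2 fun k hk d => h1 k hk d d.2

end Pool.Agent.Results.MP_57632f_nt.SimplyNormalMultiples
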