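import Mathlib
import Pool.Agent.U349.OB.Sparse
import Pool.Agent.U349.OB.Rat

/-!
# Normality and simple normality of a sparse set of multiples

For a base `b ≥ 3` a real number `x` is normal in base `b` if and only if the multiples `k x` are
simply normal in base `b`, where `k` runs over an arbitrarily sparse set of positive integers (the
same set for all bases; only the `k` not divisible by `b` are needed), or over the explicit
multipliers `k (b ^ m - 1)` with `k ≤ f m`, `f → ∞` arbitrarily slowly.  No finite set of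
multipliers suffices (base 10).  Applied to `π` in base 10.
-/

set_option autoImplicit false

namespace Pool.Agent.Results.MP_57632f_nt.SparseMultiples

open Finset Filter Topology
open Pool.Agent.U349.OB

/-- `x` is normal in base `b`: every word `w` of length `k ≥ 1` over the digits `0, …, b-1` occurs
with asymptotic frequency `b ^ (-k)` in the base-`b` expansion of `x`; the `(i+1)`-st digit of `x`
after the point is `⌊x b ^ (i+1)⌋ mod b`. -/
def IsNormal (b : ℕ) (x : ℝ) : Prop :=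
  ∀ k : ℕ, 0 < k → ∀ w : Fin k → Fin b,
    Tendsto (fun n : ℕ => ((#{i ∈ range n | ∀ j : Fin k,
      ⌊x * (b : ℝ) ^ (i + 1 + (j : ℕ))⌋ % (b : ℤ) = ((w j : ℕ) : ℤ)} : ℕ) : ℝ) / (n : ℝ)) atTop
      (𝓝 (1 / (b : ℝ) ^ k))

/-- `x` is simply normal in base `b`: every digit has asymptotic frequency `1 / b`. -/
def IsSimplyNormal (b : ℕ) (x : ℝ) : Prop :=
  ∀ d : Fin b, Tendsto (fun n : ℕ => ((#{i ∈ range n |
    ⌊x * (b : ℝ) ^ (i + 1)⌋ % (b : ℤ) = ((d : ℕ) : ℤ)} : ℕ) : ℝ) / (n : ℝ)) atTop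
    (𝓝 (1 / (b : ℝ)))

lemma normal_iff (b : ℕ) (hb : 0 < b) (x : ℝ) : IsNormal b x ↔ CellN b x :=
  (cellN_iff b hb x).symm

lemma simply_iff (b : ℕ) (x : ℝ) : IsSimplyNormal b x ↔ SN b x := (SN_iff b x).symm

/-- a rational number is not normal -/
lemma not_normal_rat (b : ℕ) (hb : 2 ≤ b) (x : ℚ) : ¬ CellN b (x : ℝ) := by
  intro h
  have h1 := SN_of_cellN b hb (x : ℝ) h x.den x.den_pos
  have h2 : (x.den : ℝ) * (x : ℝ) = (x.num : ℝ) := by
    have := Rat.den_mul_eq_num x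
    exact_mod_cast this
  rw [h2] at h1
  obtain ⟨n0, hn0⟩ := h1 0 (by omega) (1 / 4) (by norm_num)
  have h3 := hn0 (n0 + 1) (by omega)
  have h4 : ({i ∈ range (n0 + 1) | ⌊(b : ℝ) * ((x.num : ℝ) * (b : ℝ) ^ i)⌋ % (b : ℤ) =
      ((0 : ℕ) : ℤ)} : Finset ℕ) = range (n0 + 1) := by
    apply filter_true_of_mem
    intro i _
    have h5 : (b : ℝ) * ((x.num : ℝ) * (b : ℝ) ^ i) = (((b : ℤ) * (x.num * (b : ℤ) ^ i) : ℤ) : ℝ) := by
      push_cast; ring
    rw [h5, Int.floor_intCast]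
    simp
  beta_reduce at h3
  rw [h4, card_range] at h3
  have h5 : (2 : ℝ) ≤ b := by exact_mod_cast hb
  have h6 : 1 / (b : ℝ) ≤ 1 / 2 := one_div_le_one_div_of_le (by norm_num) h5
  have h7 : (1 : ℝ) ≤ ((n0 + 1 : ℕ) : ℝ) := by exact_mod_cast Nat.le_add_left 1 n0
  have h8 := (abs_le.1 h3).2
  nlinarith

lemma cast_mult (b m k : ℕ) (hb : 1 ≤ b) (x : ℝ) :
    (((k * (b ^ m - 1) : ℕ) : ℝ) * x) = (k : ℝ) * ((b : ℝ) ^ m - 1) * x := by
  have h1 : 1 ≤ b ^ m := Nat.one_le_pow _ _ hb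
  rw [Nat.cast_mul, Nat.cast_sub h1]
  push_cast
  ring

theorem part2 (b : ℕ) (hb : 3 ≤ b) (f : ℕ → ℕ) (hf : Tendsto f atTop atTop) (a : ℕ → ℕ)
    (ha : StrictMono a) (x : ℝ) :
    IsNormal b x ↔ ∀ p q k : ℕ, q < p → 1 ≤ k → k ≤ f (a p - a q) → ¬ b ∣ k →
      IsSimplyNormal b ((k : ℝ) * ((b : ℝ) ^ (a p - a q) - 1) * x) := by
  rw [normal_iff b (by omega)]
  constructor
  · intro h p q k hqp hk _ _
    rw [simply_iff, ← cast_mult b _ k (by omega)]
    refine SN_of_cellN b (by omega) x h _ (Nat.mul_pos hk ?_)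
    have h1 : a q < a p := ha hqp
    have h2 : 1 < b ^ (a p - a q) := Nat.one_lt_pow (by omega) (by omega)
    omega
  · intro h
    refine explicit b hb f hf a ha x ?_
    intro p q hqp k hk1 hk2 hk3
    have := h p q k hqp hk1 hk2 hk3
    rwa [simply_iff, ← cast_mult b _ k (by omega)] at this

/-- **Normality is simple normality of an arbitrarily sparse set of multiples.** -/
theorem result :
    -- (1) for every `g → ∞` there is a set `A` with at most `g X` elements up to `X`, such that in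
    -- every base `b ≥ 3` a real number is normal iff `k x` is simply normal for all `k ∈ A`, `b ∤ k`
    (∀ g : ℕ → ℕ, Tendsto g atTop atTop → ∃ A : Set ℕ, (∀ k ∈ A, 1 ≤ k) ∧
      (∀ X : ℕ, (A ∩ Set.Icc 1 X).ncard ≤ g X) ∧
      ∀ b : ℕ, 3 ≤ b → ∀ x : ℝ,
        IsNormal b x ↔ ∀ k ∈ A, ¬ b ∣ k → IsSimplyNormal b ((k : ℝ) * x)) ∧
    -- (2) explicit families of multipliers
    (∀ b : ℕ, 3 ≤ b → ∀ f : ℕ → ℕ, Tendsto f atTop atTop → ∀ a : ℕ → ℕ, StrictMono a → ∀ x : ℝ,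
      IsNormal b x ↔ ∀ p q k : ℕ, q < p → 1 ≤ k → k ≤ f (a p - a q) → ¬ b ∣ k →
        IsSimplyNormal b ((k : ℝ) * ((b : ℝ) ^ (a p - a q) - 1) * x)) ∧
    -- (3) `π` in base 10
    (∀ f : ℕ → ℕ, Tendsto f atTop atTop →
      (IsNormal 10 Real.pi ↔ ∀ m k : ℕ, 1 ≤ m → 1 ≤ k → k ≤ f m → ¬ 10 ∣ k →
        IsSimplyNormal 10 ((k : ℝ) * ((10 : ℝ) ^ m - 1) * Real.pi))) ∧
    -- (4) no finite set of multipliers suffices
    (∀ A : Finset ℕ, (∀ k ∈ A, 1 ≤ k) → ∃ x : ℚ, ¬ IsNormal 10 (x : ℝ) ∧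
      ∀ k ∈ A, IsSimplyNormal 10 ((k : ℝ) * (x : ℝ))) := by
  refine ⟨?_, part2, ?_, ?_⟩
  · intro g hg
    obtain ⟨A, hA1, hA2, hA3⟩ := sparse g hg
    refine ⟨A, hA1, hA2, fun b hb x => ?_⟩
    rw [normal_iff b (by omega)]
    constructor
    · intro h k hk _
      rw [simply_iff]
      exact SN_of_cellN b (by omega) x h k (hA1 k hk)
    · intro h
      exact hA3 b hb x fun k hk hbk => (simply_iff _ _).1 (h k hk hbk)
  · intro f hf
    rw [part2 10 (by norm_num) f hf id strictMono_id Real.pi]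
    constructor
    · intro h m k hm hk1 hk2 hk3
      have := h m 0 k hm hk1 (by simpa using hk2) hk3
      simpa using this
    · intro h p q k hqp hk1 hk2 hk3
      have := h (p - q) k (by omega) hk1 (by simpa using hk2) hk3
      simpa using this
  · intro A hA
    obtain ⟨x, hx⟩ := finite_not A hA
    refine ⟨x, ?_, fun k hk => (simply_iff _ _).2 (hx k hk)⟩
    rw [normal_iff 10 (by norm_num)]
    exact not_normal_rat 10 (by norm_num) x

end Pool.Agent.Results.MP_57632f_nt.SparseMultiples
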